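import Mathlib
import Pool.Agent.N646.AC.Vec

set_option autoImplicit false

/-!
# Bohr sets of good differences, for relations which every large set meets

Finite form: if every `K`-element subset of `[0, H)` contains a good `(k+2)`-tuple (a translation
invariant notion), then there is a Bohr set of bounded rank almost all of whose elements `b` are first
differences of a positive proportion of all the possible tuples.
-/

namespace Pool.Agent.N688.FB

open Finset
open Pool.Agent.N646.AC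

/-- the bad pairs -/
def Bad (P : (Fin 2 → ℤ) → Prop) (x y : ℤ) : Prop :=
  x ≠ y ∧ ¬ P (fun i => (![x, y] : Fin 2 → ℤ) i - x)

open Classical in
/-- the sequences of `n` elements of `A` all of whose pairs are bad -/
noncomputable def cl (P : (Fin 2 → ℤ) → Prop) (n : ℕ) (A : Finset ℤ) : Finset (Fin n → ℤ) :=
  (Fintype.piFinset (fun _ : Fin n => A)).filter (fun v => ∀ i j, i < j → Bad P (v i) (v j))

theorem mem_cl {P : (Fin 2 → ℤ) → Prop} {n : ℕ} {A : Finset ℤ} {v : Fin n → ℤ} :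
    v ∈ cl P n A ↔ (∀ i, v i ∈ A) ∧ ∀ i j, i < j → Bad P (v i) (v j) := by
  classical
  unfold cl
  rw [mem_filter, Fintype.mem_piFinset]

open Classical in
theorem cl_succ (P : (Fin 2 → ℤ) → Prop) (n : ℕ) (A : Finset ℤ) :
    ∑ x ∈ A, (cl P n (A.filter (Bad P x))).card ≤ (cl P (n + 1) A).card := by
  rw [← card_sigma]
  apply card_le_card_of_injOn (fun p => (Fin.cons p.1 p.2 : Fin (n + 1) → ℤ))
  · rintro ⟨x, v⟩ h
    rw [mem_coe, mem_sigma] at h
    obtain ⟨h1, h2⟩ := h
    rw [mem_cl] at h2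
    obtain ⟨h2, h3⟩ := h2
    rw [mem_coe, mem_cl]
    refine ⟨fun i => ?_, fun i j hij => ?_⟩
    · refine Fin.cases ?_ (fun i => ?_) i
      · exact h1
      · exact (mem_filter.1 (h2 i)).1
    · revert hij
      refine Fin.cases ?_ (fun j => ?_) j
      · intro hij
        exact absurd hij (Fin.not_lt_zero _)
      · refine Fin.cases ?_ (fun i => ?_) i
        · intro _
          exact (mem_filter.1 (h2 j)).2
        · intro hij
          exact h3 i j (Fin.succ_lt_succ_iff.1 hij)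
  · rintro ⟨x, v⟩ _ ⟨y, w⟩ _ h
    obtain ⟨h1, h2⟩ := Fin.cons_inj.1 h
    simp only at h1 h2
    subst h1
    subst h2
    rfl

/-- the Bohr alternative -/
def Alt (s : ℕ) (ε : ℝ) (d : ℕ) (ρ δ : ℝ) (H : ℕ) (P : (Fin 2 → ℤ) → Prop) : Prop :=
  open Classical in
  ∃ (Θ : Finset ℝ) (r : ℝ), Θ.card ≤ d ∧ ρ ≤ r ∧ r ≤ 1 ∧ δ * H ≤ (Bz Θ r H).card ∧
    (((Fintype.piFinset (fun _ : Fin 1 => Bz Θ r H)).filter (fun y =>
        ¬ ∀ T ∈ Mats 1 s, T.det ≠ 0 →
          Function.Injective (nv (T.mulVec y)) ∧ P (nv (T.mulVec y)))).card : ℝ) ≤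
        ε * ((Bz Θ r H).card : ℝ) ^ 1

theorem Alt.mono {s : ℕ} {ε : ℝ} {d d' : ℕ} {ρ ρ' δ δ' : ℝ} {H : ℕ} {P : (Fin 2 → ℤ) → Prop}
    (h : Alt s ε d ρ δ H P) (hd : d ≤ d') (hρ : ρ' ≤ ρ) (hδ : δ' ≤ δ) : Alt s ε d' ρ' δ' H P := by
  obtain ⟨Θ, r, h1, h2, h3, h4, h5⟩ := h
  refine ⟨Θ, r, h1.trans hd, hρ.trans h2, h3, ?_, h5⟩
  refine le_trans ?_ h4
  exact mul_le_mul_of_nonneg_right hδ (Nat.cast_nonneg _)

open Classical in
theorem card_pairs (A : Finset ℤ) (P : (Fin 2 → ℤ) → Prop) :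
    ((Fintype.piFinset (fun _ : Fin 2 => A)).filter (fun t => Function.Injective t ∧
      ¬ P (fun i => t i - t 0))).card ≤ ∑ x ∈ A, (A.filter (Bad P x)).card := by
  rw [← card_sigma]
  apply card_le_card_of_injOn (fun t => (⟨t 0, t 1⟩ : (_ : ℤ) × ℤ))
  · intro t ht
    rw [mem_coe, mem_filter, Fintype.mem_piFinset] at ht
    obtain ⟨h1, h2, h3⟩ := ht
    rw [mem_coe, mem_sigma, mem_filter]
    refine ⟨h1 0, h1 1, fun h => ?_, fun h => h3 ?_⟩
    · have := h2 h
      exact absurd this (by decide)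
    · have e : (fun i => t i - t 0) = (fun i => (![t 0, t 1] : Fin 2 → ℤ) i - t 0) := by
        funext i
        fin_cases i <;> rfl
      rw [e]
      exact h
  · intro t _ t' _ h
    simp only [Sigma.mk.injEq, heq_eq_eq] at h
    funext i
    fin_cases i
    · exact h.1
    · exact h.2

open Classical in
/-- **either a Bohr set of good differences or many bad cliques** -/
theorem eng (s : ℕ) (ε : ℝ) (hε : 0 < ε) (n : ℕ) : ∀ α : ℝ, 0 < α →
    ∃ (d H₀ : ℕ) (ρ δ c : ℝ), 0 < ρ ∧ 0 < δ ∧ 0 < c ∧ ∀ H : ℕ, H₀ ≤ H →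
      ∀ P : (Fin 2 → ℤ) → Prop, ∀ A : Finset ℤ, A ⊆ Ico 0 (H : ℤ) → α * H ≤ A.card →
        Alt s ε d ρ δ H P ∨ c * (H : ℝ) ^ n ≤ (cl P n A).card := by
  induction n with
  | zero =>
    intro α hα
    refine ⟨0, 0, 1, 1, 1, one_pos, one_pos, one_pos, fun H _ P A _ _ => Or.inr ?_⟩
    have h1 : (cl P 0 A).card = 1 := by
      have : cl P 0 A = {Fin.elim0} := by
        ext v
        rw [mem_cl, mem_singleton]
        constructor
        · intro _
          funext i
          exact i.elim0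
        · intro _
          exact ⟨fun i => i.elim0, fun i => i.elim0⟩
      rw [this, card_singleton]
    rw [h1]
    norm_num
  | succ n ih =>
    intro α hα
    obtain ⟨d₁, H₁, ρ₁, δ₁, ε', hρ₁, hδ₁, hε', hret⟩ := returnsZ 1 s α hα ε hε
    obtain ⟨d₂, H₂, ρ₂, δ₂, c₂, hρ₂, hδ₂, hc₂, hih⟩ := ih (ε' / 2) (by positivity)
    refine ⟨max d₁ d₂, max (max H₁ H₂) 1, min ρ₁ ρ₂, min δ₁ δ₂, ε' / 2 * c₂, lt_min hρ₁ hρ₂,
      lt_min hδ₁ hδ₂, by positivity, ?_⟩
    intro H hH P A hA hAα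
    have hH1 : H₁ ≤ H := (le_max_left _ _).trans ((le_max_left _ _).trans hH)
    have hH2 : H₂ ≤ H := (le_max_right _ _).trans ((le_max_left _ _).trans hH)
    have hH0 : 1 ≤ H := (le_max_right _ _).trans hH
    have hHr : (0 : ℝ) < H := by exact_mod_cast hH0
    obtain ⟨Θ, r, h1, h2, h3, h4, h5⟩ := hret H hH1 A hA hAα
    have hAH : A.card ≤ H := by
      have := card_le_card hA
      rwa [Int.card_Ico, sub_zero, Int.toNat_natCast] at this
    by_cases hcase : (((Fintype.piFinset (fun _ : Fin (1 + 1) => A)).filter (fun t =>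
        Function.Injective t ∧ ¬ P (fun i => t i - t 0))).card : ℝ) ≤ ε' * (H : ℝ) ^ (1 + 1)
    · left
      refine Alt.mono ⟨Θ, r, h1, h2, h3, h4, h5 P hcase⟩ (le_max_left _ _) (min_le_left _ _)
        (min_le_left _ _)
    push Not at hcase
    have hsum : ε' * (H : ℝ) ^ 2 < ((∑ x ∈ A, (A.filter (Bad P x)).card : ℕ) : ℝ) := by
      refine lt_of_lt_of_le hcase ?_
      exact_mod_cast card_pairs A P
    -- the vertices of large degree
    set A₁ : Finset ℤ := A.filter (fun x => ε' / 2 * H ≤ ((A.filter (Bad P x)).card : ℝ)) with hA₁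
    have hA₁c : ε' / 2 * H ≤ (A₁.card : ℝ) := by
      have e1 : ((∑ x ∈ A, (A.filter (Bad P x)).card : ℕ) : ℝ) ≤
          ∑ x ∈ A, ((if x ∈ A₁ then (H : ℝ) else 0) + ε' / 2 * H) := by
        push_cast
        apply sum_le_sum
        intro x hx
        by_cases hx1 : x ∈ A₁
        · rw [if_pos hx1]
          have h6 : ((A.filter (Bad P x)).card : ℝ) ≤ H := by
            exact_mod_cast (card_le_card (filter_subset _ _)).trans hAH
          have h7 : 0 ≤ ε' / 2 * H := by positivity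
          linarith
        · rw [if_neg hx1, zero_add]
          have h6 : ¬ (ε' / 2 * H ≤ ((A.filter (Bad P x)).card : ℝ)) := by
            intro h7
            exact hx1 (mem_filter.2 ⟨hx, h7⟩)
          exact (not_le.1 h6).le
      rw [sum_add_distrib, sum_const, nsmul_eq_mul, ← sum_filter] at e1
      have e2 : A.filter (fun x => x ∈ A₁) = A₁ := by
        ext x
        rw [mem_filter]
        exact ⟨fun h => h.2, fun h => ⟨(mem_filter.1 h).1, h⟩⟩
      rw [e2, sum_const, nsmul_eq_mul] at e1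
      have h6 : (A.card : ℝ) * (ε' / 2 * H) ≤ H * (ε' / 2 * H) := by
        apply mul_le_mul_of_nonneg_right _ (by positivity)
        exact_mod_cast hAH
      have h7 : ε' * (H : ℝ) ^ 2 < A₁.card * H + H * (ε' / 2 * H) := by linarith
      have h8 : (ε' / 2 * H) * H < A₁.card * H := by nlinarith
      exact (lt_of_mul_lt_mul_right h8 hHr.le).le
    by_cases hex : ∃ x ∈ A₁, Alt s ε d₂ ρ₂ δ₂ H P
    · obtain ⟨x, _, hx⟩ := hex
      left
      exact hx.mono (le_max_right _ _) (min_le_right _ _) (min_le_right _ _)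
    push Not at hex
    right
    have h6 : ∀ x ∈ A₁, c₂ * (H : ℝ) ^ n ≤ (cl P n (A.filter (Bad P x))).card := by
      intro x hx
      have := hih H hH2 P (A.filter (Bad P x)) ((filter_subset _ _).trans hA) (mem_filter.1 hx).2
      exact this.resolve_left (hex x hx)
    calc ε' / 2 * c₂ * (H : ℝ) ^ (n + 1) = (ε' / 2 * H) * (c₂ * (H : ℝ) ^ n) := by ring
      _ ≤ A₁.card * (c₂ * (H : ℝ) ^ n) := mul_le_mul_of_nonneg_right hA₁c (by positivity)
      _ = ∑ _x ∈ A₁, c₂ * (H : ℝ) ^ n := by rw [sum_const, nsmul_eq_mul]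
      _ ≤ ∑ x ∈ A₁, ((cl P n (A.filter (Bad P x))).card : ℝ) := sum_le_sum h6
      _ ≤ ∑ x ∈ A, ((cl P n (A.filter (Bad P x))).card : ℝ) :=
          sum_le_sum_of_subset_of_nonneg (filter_subset _ _) fun _ _ _ => Nat.cast_nonneg _
      _ = ((∑ x ∈ A, (cl P n (A.filter (Bad P x))).card : ℕ) : ℝ) := by push_cast; rfl
      _ ≤ (cl P (n + 1) A).card := by exact_mod_cast cl_succ P n A

end Pool.Agent.N688.FB
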