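import Pool.Agent.N688.FB.Eng

set_option autoImplicit false
set_option maxHeartbeats 4000000

/-!
# Bohr sets of good differences, if few tuples contain no good pattern
-/

namespace Pool.Agent.N688.FB

open Finset
open Pool.Agent.N646.AC

open Classical in
/-- **the engine**, if few tuples contain no good pattern -/
theorem main3 (k s K : ℕ) (ε : ℝ) (hε : 0 < ε) : ∃ (d H₀ : ℕ) (ρ δ κ c₁ : ℝ), 0 < ρ ∧ 0 < δ ∧ 0 < κ ∧ 0 < c₁ ∧
    ∀ H : ℕ, H₀ ≤ H → ∀ Pat : (Fin (k + 2) → ℤ) → Prop,
      (∀ x c, Pat x → Pat (fun i => x i + c)) →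
      (((Fintype.piFinset (fun _ : Fin K => Ico 0 (H : ℤ))).filter (fun v => Function.Injective v ∧
        ¬ ∃ x : Fin (k + 2) → ℤ, Function.Injective x ∧ (∀ i, x i ∈ univ.image v) ∧ x 0 < x 1 ∧
          Pat x)).card : ℝ) ≤ c₁ * (H : ℝ) ^ K →
      ∃ (Θ : Finset ℝ) (r : ℝ), Θ.card ≤ d ∧ ρ ≤ r ∧ r ≤ 1 ∧ δ * H ≤ (Bz Θ r H).card ∧
        (((Bz Θ r H).filter (fun b => ¬ ∀ j : ℕ, 1 ≤ j → j ≤ s →
          κ * (H : ℝ) ^ k ≤ ext k H Pat (j * |b|))).card : ℝ) ≤ ε * (Bz Θ r H).card := by
  obtain ⟨d, H₀, ρ, δ, c, hρ, hδ, hc, h⟩ := eng s ε hε K 1 one_pos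
  set κ : ℝ := c / (2 * (K : ℝ) ^ (k + 2) + 1) with hκ
  have hκ0 : 0 < κ := by positivity
  refine ⟨d, max H₀ 1, ρ, δ, κ, c / 4, hρ, hδ, hκ0, by positivity, ?_⟩
  intro H hH Pat hPat hfew
  have hH0 : H₀ ≤ H := (le_max_left _ _).trans hH
  have hH1 : 1 ≤ H := (le_max_right _ _).trans hH
  have hHr : (1 : ℝ) ≤ H := by exact_mod_cast hH1
  set P : (Fin 2 → ℤ) → Prop := fun t => κ * (H : ℝ) ^ k ≤ ext k H Pat |t 1 - t 0| with hP
  have hVc : (Ico 0 (H : ℤ)).card = H := by rw [Int.card_Ico, sub_zero, Int.toNat_natCast]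
  rcases h H hH0 P (Ico 0 (H : ℤ)) subset_rfl (by rw [hVc, one_mul]) with h1 | h1
  · -- the Bohr set
    obtain ⟨Θ, r, g1, g2, g3, g4, g5⟩ := h1
    refine ⟨Θ, r, g1, g2, g3, g4, ?_⟩
    rw [pow_one] at g5
    refine le_trans ?_ g5
    rw [Nat.cast_le]
    apply card_le_card_of_injOn (fun b => (fun _ => b : Fin 1 → ℤ))
    · intro b hb
      rw [mem_coe, mem_filter] at hb
      rw [mem_coe, mem_filter, Fintype.mem_piFinset]
      refine ⟨fun _ => hb.1, fun hall => hb.2 ?_⟩
      intro j hj1 hj2
      have h2 := hall (Matrix.of fun _ _ => (j : ℤ)) (by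
        rw [mem_Mats]
        intro i i'
        rw [Matrix.of_apply, Nat.abs_cast]
        exact_mod_cast hj2) (by
        rw [Matrix.det_fin_one, Matrix.of_apply]
        exact_mod_cast (by omega : j ≠ 0))
      have h3 := h2.2
      rw [hP] at h3
      simp only at h3
      have e1 : nv ((Matrix.of fun _ _ => (j : ℤ) : Matrix (Fin 1) (Fin 1) ℤ).mulVec
          (fun _ => b)) 1 = j * b := by
        show (Fin.cons 0 _ : Fin 2 → ℤ) 1 = _
        rw [show (1 : Fin 2) = Fin.succ 0 from rfl, Fin.cons_succ]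
        simp [Matrix.mulVec, dotProduct]
      have e2 : nv ((Matrix.of fun _ _ => (j : ℤ) : Matrix (Fin 1) (Fin 1) ℤ).mulVec
          (fun _ => b)) 0 = 0 := rfl
      rw [e1, e2, sub_zero, abs_mul, Nat.abs_cast] at h3
      exact h3
    · intro b _ b' _ hbb
      exact congrFun hbb 0
  · -- too many bad cliques
    exfalso
    set V : Finset ℤ := Ico 0 (H : ℤ) with hV
    set Q : (Fin (k + 2) → ℤ) → Prop := fun x => Pat x ∧ x 0 < x 1 ∧ ¬ P ![x 0, x 1] with hQ
    set X : Finset (Fin (k + 2) → ℤ) := (Fintype.piFinset (fun _ : Fin (k + 2) => V)).filter Q with hX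
    -- the number of the good tuples with a bad first pair
    have hXc : (X.card : ℝ) ≤ κ * (H : ℝ) ^ (k + 2) := by
      have h2 : X.card ≤ ∑ p ∈ V ×ˢ V, ((Fintype.piFinset (fun _ : Fin k => Icc (-(H : ℤ)) H)).filter
          (fun g => ¬ P ![p.1, p.2] ∧ p.1 < p.2 ∧ Pat (Fin.cons 0 (Fin.cons (p.2 - p.1) g)))).card := by
        rw [← card_sigma]
        apply card_le_card_of_injOn (fun x => (⟨(x 0, x 1), fun i => x i.succ.succ - x 0⟩ :
          (_ : ℤ × ℤ) × (Fin k → ℤ)))
        · intro x hx
          rw [mem_coe, hX, mem_filter, Fintype.mem_piFinset] at hx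
          obtain ⟨h3, h4, h5, h6⟩ := hx
          rw [mem_coe, mem_sigma, mem_product, mem_filter, Fintype.mem_piFinset]
          refine ⟨⟨h3 0, h3 1⟩, fun i => ?_, h6, h5, ?_⟩
          · have h7 := mem_Ico.1 (h3 i.succ.succ)
            have h8 := mem_Ico.1 (h3 0)
            rw [mem_Icc]
            constructor
            · simp only; linarith [h7.1, h8.2]
            · simp only; linarith [h7.2, h8.1]
          · have h7 := hPat x (-x 0) h4
            have e : (fun i => x i + -x 0) =
                (Fin.cons 0 (Fin.cons (x 1 - x 0) (fun i => x i.succ.succ - x 0)) :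
                  Fin (k + 2) → ℤ) := by
              funext i
              refine Fin.cases ?_ (fun i => ?_) i
              · show x 0 + -x 0 = 0
                ring
              · refine Fin.cases ?_ (fun i => ?_) i
                · show x 1 + -x 0 = x 1 - x 0
                  ring
                · rw [Fin.cons_succ, Fin.cons_succ]
                  ring
            rw [e] at h7
            exact h7
        · intro x _ y _ hxy
          simp only [Sigma.mk.injEq, Prod.mk.injEq] at hxy
          obtain ⟨⟨h3, h4⟩, h5⟩ := hxy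
          rw [heq_eq_eq] at h5
          funext i
          refine Fin.cases h3 (fun i => ?_) i
          refine Fin.cases h4 (fun i => ?_) i
          have h6 : x i.succ.succ - x 0 = y i.succ.succ - y 0 := congrFun h5 i
          have h3' : x 0 = y 0 := h3
          show x i.succ.succ = y i.succ.succ
          linarith
      have h3 : ∀ p ∈ V ×ˢ V, (((Fintype.piFinset (fun _ : Fin k => Icc (-(H : ℤ)) H)).filter
          (fun g => ¬ P ![p.1, p.2] ∧ p.1 < p.2 ∧
            Pat (Fin.cons 0 (Fin.cons (p.2 - p.1) g)))).card : ℝ) ≤ κ * (H : ℝ) ^ k := by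
        intro p _
        by_cases hp : ¬ P ![p.1, p.2] ∧ p.1 < p.2
        · have h4 : ext k H Pat |p.2 - p.1| < κ * (H : ℝ) ^ k := by
            have h5 := hp.1
            rw [hP] at h5
            simp only [Matrix.cons_val_zero, Matrix.cons_val_one, not_le] at h5
            exact h5
          rw [abs_of_pos (sub_pos.2 hp.2)] at h4
          refine le_trans ?_ h4.le
          rw [Nat.cast_le]
          unfold ext
          apply card_le_card
          intro g hg
          rw [mem_filter] at hg ⊢
          exact ⟨hg.1, hg.2.2.2⟩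
        · have h4 : (Fintype.piFinset (fun _ : Fin k => Icc (-(H : ℤ)) H)).filter
            (fun g => ¬ P ![p.1, p.2] ∧ p.1 < p.2 ∧
              Pat (Fin.cons 0 (Fin.cons (p.2 - p.1) g))) = ∅ := by
            rw [filter_eq_empty_iff]
            intro g _ hg
            exact hp ⟨hg.1, hg.2.1⟩
          rw [h4, card_empty, Nat.cast_zero]
          positivity
      calc (X.card : ℝ) ≤ ∑ p ∈ V ×ˢ V, (((Fintype.piFinset (fun _ : Fin k => Icc (-(H : ℤ)) H)).filter
          (fun g => ¬ P ![p.1, p.2] ∧ p.1 < p.2 ∧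
            Pat (Fin.cons 0 (Fin.cons (p.2 - p.1) g)))).card : ℝ) := by exact_mod_cast h2
        _ ≤ ∑ _p ∈ V ×ˢ V, κ * (H : ℝ) ^ k := sum_le_sum h3
        _ = κ * (H : ℝ) ^ (k + 2) := by
            rw [sum_const, card_product, hVc, nsmul_eq_mul]
            push_cast
            ring
    -- the cliques
    obtain ⟨Bd, hBd⟩ : ∃ Bd, Bd = (Fintype.piFinset (fun _ : Fin K => V)).filter (fun v => Function.Injective v ∧
        ¬ ∃ x : Fin (k + 2) → ℤ, Function.Injective x ∧ (∀ i, x i ∈ univ.image v) ∧ x 0 < x 1 ∧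
          Pat x) := ⟨_, rfl⟩
    have hBdc : (Bd.card : ℝ) ≤ c / 4 * (H : ℝ) ^ K := by
      refine le_trans (le_of_eq ?_) hfew
      rw [hBd]
    have hcl : ((cl P K V).card : ℝ) ≤ (K : ℝ) ^ (k + 2) * (κ * (H : ℝ) ^ K) + c / 4 * (H : ℝ) ^ K := by
      set I : Finset (Fin (k + 2) → Fin K) := univ.filter Function.Injective with hI
      have h2 : cl P K V ⊆ I.biUnion (fun a => (Fintype.piFinset (fun _ : Fin K => V)).filter
          (fun v => v ∘ a ∈ X)) ∪ Bd := by
        intro v hv
        by_cases hvB : v ∈ Bd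
        · exact mem_union_right _ hvB
        apply mem_union_left
        rw [mem_cl] at hv
        obtain ⟨h3, h4⟩ := hv
        have hinj : Function.Injective v := by
          intro i j hij
          by_contra hne
          rcases lt_or_gt_of_ne hne with h5 | h5
          · exact (h4 i j h5).1 hij
          · exact (h4 j i h5).1 hij.symm
        have hex' : ∃ x : Fin (k + 2) → ℤ, Function.Injective x ∧ (∀ i, x i ∈ univ.image v) ∧
            x 0 < x 1 ∧ Pat x := by
          by_contra hno
          apply hvB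
          rw [hBd]
          exact mem_filter.2 ⟨Fintype.mem_piFinset.2 h3, hinj, hno⟩
        obtain ⟨x, hx1, hx2, hx3, hx4⟩ := hex'
        have h5 : ∀ i, ∃ a, v a = x i := fun i => by
          obtain ⟨a, _, ha⟩ := mem_image.1 (hx2 i)
          exact ⟨a, ha⟩
        choose a ha using h5
        have hva : v ∘ a = x := funext ha
        rw [mem_biUnion]
        refine ⟨a, mem_filter.2 ⟨mem_univ _, ?_⟩, mem_filter.2 ⟨Fintype.mem_piFinset.2 h3, ?_⟩⟩
        · intro i j hij
          apply hx1
          rw [← ha i, ← ha j, hij]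
        · rw [hva, hX, mem_filter, Fintype.mem_piFinset]
          refine ⟨fun i => by rw [← ha i]; exact h3 _, hx4, hx3, ?_⟩
          have hne : a 0 ≠ a 1 := by
            intro he
            have : x 0 = x 1 := by rw [← ha 0, ← ha 1, he]
            exact hx3.ne this
          have hb : ∀ y z : ℤ, Bad P y z → ¬ P ![y, z] ∧ ¬ P ![z, y] := by
            intro y z hyz
            have h6 := hyz.2
            rw [hP] at h6 ⊢
            simp only [Matrix.cons_val_zero, Matrix.cons_val_one, sub_sub_sub_cancel_right] at h6 ⊢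
            refine ⟨h6, ?_⟩
            rw [abs_sub_comm]
            exact h6
          rw [← ha 0, ← ha 1]
          rcases lt_or_gt_of_ne hne with h7 | h7
          · exact (hb _ _ (h4 _ _ h7)).1
          · exact (hb _ _ (h4 _ _ h7)).2
      have h3 : ∀ a ∈ I, (((Fintype.piFinset (fun _ : Fin K => V)).filter
          (fun v => v ∘ a ∈ X)).card : ℝ) ≤ κ * (H : ℝ) ^ K := by
        intro a ha
        have hai : Function.Injective a := (mem_filter.1 ha).2
        have hkK : k + 2 ≤ K := by
          have := Fintype.card_le_of_injective a hai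
          rwa [Fintype.card_fin, Fintype.card_fin] at this
        have h4 : ((Fintype.piFinset (fun _ : Fin K => V)).filter (fun v => v ∘ a ∈ X)).card ≤
            ∑ x ∈ X, ((Fintype.piFinset (fun _ : Fin K => V)).filter (fun v => v ∘ a = x)).card := by
          refine le_trans (card_le_card ?_) card_biUnion_le
          intro v hv
          rw [mem_filter] at hv
          rw [mem_biUnion]
          exact ⟨v ∘ a, hv.2, mem_filter.2 ⟨hv.1, rfl⟩⟩
        have h5 : ((Fintype.piFinset (fun _ : Fin K => V)).filter (fun v => v ∘ a ∈ X)).card ≤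
            X.card * H ^ (K - (k + 2)) := by
          refine h4.trans ?_
          calc ∑ x ∈ X, ((Fintype.piFinset (fun _ : Fin K => V)).filter (fun v => v ∘ a = x)).card
              ≤ ∑ _x ∈ X, H ^ (K - (k + 2)) := sum_le_sum fun x _ => by
                have := card_fib V a hai x
                rwa [hVc] at this
            _ = _ := by rw [sum_const, smul_eq_mul]
        calc (((Fintype.piFinset (fun _ : Fin K => V)).filter (fun v => v ∘ a ∈ X)).card : ℝ)
            ≤ X.card * (H : ℝ) ^ (K - (k + 2)) := by exact_mod_cast h5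
          _ ≤ κ * (H : ℝ) ^ (k + 2) * (H : ℝ) ^ (K - (k + 2)) :=
              mul_le_mul_of_nonneg_right hXc (by positivity)
          _ = κ * (H : ℝ) ^ K := by
              rw [mul_assoc, ← pow_add]
              congr 2
              omega
      have h2' : ((cl P K V).card : ℝ) ≤ ((I.biUnion (fun a => (Fintype.piFinset (fun _ : Fin K => V)).filter
          (fun v => v ∘ a ∈ X))).card : ℝ) + Bd.card := by
        exact_mod_cast (card_le_card h2).trans (card_union_le _ _)
      refine h2'.trans (add_le_add ?_ hBdc)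
      calc ((I.biUnion (fun a => (Fintype.piFinset (fun _ : Fin K => V)).filter
          (fun v => v ∘ a ∈ X))).card : ℝ) ≤ ∑ a ∈ I, (((Fintype.piFinset (fun _ : Fin K => V)).filter
          (fun v => v ∘ a ∈ X)).card : ℝ) := by exact_mod_cast card_biUnion_le
        _ ≤ ∑ _a ∈ I, κ * (H : ℝ) ^ K := sum_le_sum h3
        _ = I.card * (κ * (H : ℝ) ^ K) := by rw [sum_const, nsmul_eq_mul]
        _ ≤ (K : ℝ) ^ (k + 2) * (κ * (H : ℝ) ^ K) := by
            apply mul_le_mul_of_nonneg_right _ (by positivity)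
            have h6 : I.card ≤ K ^ (k + 2) := by
              refine (card_le_card (subset_univ _)).trans ?_
              rw [card_univ, Fintype.card_fun, Fintype.card_fin, Fintype.card_fin]
            exact_mod_cast h6
    have h2 : c * (H : ℝ) ^ K ≤ (K : ℝ) ^ (k + 2) * (κ * (H : ℝ) ^ K) + c / 4 * (H : ℝ) ^ K := h1.trans hcl
    have h3 : (0 : ℝ) < (H : ℝ) ^ K := by positivity
    have h4 : (K : ℝ) ^ (k + 2) * (κ * (H : ℝ) ^ K) < c / 2 * (H : ℝ) ^ K := by
      have h5 : (K : ℝ) ^ (k + 2) * κ < c / 2 := by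
        rw [hκ, ← mul_div_assoc, div_lt_iff₀ (by positivity)]
        have h6 : (0 : ℝ) ≤ (K : ℝ) ^ (k + 2) := by positivity
        nlinarith
      calc (K : ℝ) ^ (k + 2) * (κ * (H : ℝ) ^ K) = ((K : ℝ) ^ (k + 2) * κ) * (H : ℝ) ^ K := by ring
        _ < c / 2 * (H : ℝ) ^ K := mul_lt_mul_of_pos_right h5 h3
    have h6 : 0 < c * (H : ℝ) ^ K := by positivity
    linarith

end Pool.Agent.N688.FB
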