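import Pool.Agent.TH101.RG.TupMult

set_option autoImplicit false
set_option maxHeartbeats 4000000

/-!
# Blocks of consecutive primes after a record gap, with prescribed differences, among any `K` shifts
-/

namespace Pool.Agent.N688.FB

open Finset Filter
open Pool.Agent.H312R2.RG (ev_ff)
open Pool.Agent.H256R2.SC (ff)
open Pool.Agent.H362R2.RQ (fib)

/-- the primes in `[p - G, p + M x_last]` are exactly the `p + M x_i` -/
def Blk (G X : ℝ) (M K q a : ℕ) {k : ℕ} (x : Fin (k + 2) → ℤ) (p : ℕ) : Prop :=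
  X < p ∧ (p : ℝ) ≤ 4 * X ∧ p ≡ a [MOD q] ∧
    (∀ y : ℤ, -G ≤ y → y ≤ M * x (Fin.last (k + 1)) → (((p : ℤ) + y).toNat.Prime ↔ ∃ i, y = M * x i)) ∧
    {p' : ℕ | p'.Prime ∧ |(p' : ℝ) - p| ≤ G}.ncard ≤ K

/-- the number of the blocks -/
noncomputable def occ (G X : ℝ) (M K q a : ℕ) {k : ℕ} (x : Fin (k + 2) → ℤ) : ℕ :=
  {p : ℕ | Blk G X M K q a x p}.ncard

theorem blk_finite (G X : ℝ) (M K q a : ℕ) {k : ℕ} (x : Fin (k + 2) → ℤ) :
    {p : ℕ | Blk G X M K q a x p}.Finite := by
  apply (Set.finite_Iic ⌊4 * X⌋₊).subset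
  intro p hp
  exact Set.mem_Iic.2 (Nat.le_floor hp.2.1)

/-- balanced colourings -/
theorem bal (m K : ℕ) (hm : 1 ≤ m) (hmK : m ≤ K) : ∃ col : Fin K → Fin m, ∀ e, K ≤ 2 * m * fib col e := by
  refine ⟨fun i => ⟨i.val % m, Nat.mod_lt _ (by omega)⟩, fun e => ?_⟩
  have h1 : K / m ≤ fib (fun i : Fin K => (⟨i.val % m, Nat.mod_lt _ (by omega)⟩ : Fin m)) e := by
    unfold fib
    have h2 : (univ.image (fun s : Fin (K / m) => (⟨e.val + m * s.val, by
        have h3 := s.2
        have h4 := e.2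
        have h5 : m * (K / m) ≤ K := Nat.mul_div_le K m
        have h6 : m * (s.val + 1) ≤ m * (K / m) := Nat.mul_le_mul_left m h3
        rw [Nat.mul_add, Nat.mul_one] at h6
        omega⟩ : Fin K))) ⊆ univ.filter (fun i : Fin K =>
          (⟨i.val % m, Nat.mod_lt _ (by omega)⟩ : Fin m) = e) := by
      intro i hi
      obtain ⟨s, _, rfl⟩ := mem_image.1 hi
      rw [mem_filter]
      refine ⟨mem_univ _, ?_⟩
      apply Fin.ext
      simp only [Nat.add_mul_mod_self_left]
      exact Nat.mod_eq_of_lt e.2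
    have h3 := card_le_card h2
    rw [card_image_of_injective _ (by
      intro s s' hss
      have h4 := congrArg Fin.val hss
      simp only at h4
      apply Fin.ext
      have h5 : m * s.val = m * s'.val := by omega
      exact Nat.eq_of_mul_eq_mul_left (by omega) h5), card_univ, Fintype.card_fin] at h3
    exact h3
  have h2 : K < m * (K / m + 1) := by
    have := Nat.lt_mul_div_succ K (show 0 < m by omega)
    exact this
  have h3 : 1 ≤ K / m := (Nat.one_le_div_iff (by omega)).2 hmK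
  have h4 : m * (K / m) ≤ m * fib (fun i : Fin K =>
    (⟨i.val % m, Nat.mod_lt _ (by omega)⟩ : Fin m)) e := Nat.mul_le_mul_left m h1
  have h5 : m ≤ m * (K / m) := Nat.le_mul_of_pos_right m (by omega)
  rw [Nat.mul_add, Nat.mul_one] at h2
  have h6 : 2 * m * fib (fun i : Fin K =>
    (⟨i.val % m, Nat.mod_lt _ (by omega)⟩ : Fin m)) e = 2 * (m * fib (fun i : Fin K =>
    (⟨i.val % m, Nat.mod_lt _ (by omega)⟩ : Fin m)) e) := by ring
  rw [h6]
  omega

/-- the smallest elements of a finite set -/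
theorem small_elts (S : Finset ℤ) (n : ℕ) (h : n ≤ S.card) : ∃ x : Fin n → ℤ, StrictMono x ∧
    (∀ i, x i ∈ S) ∧ ∀ y ∈ S, (∃ i, y ≤ x i) → ∃ i, y = x i := by
  refine ⟨fun i => S.orderEmbOfFin rfl (Fin.castLE h i), ?_, ?_, ?_⟩
  · intro i j hij
    exact (S.orderEmbOfFin rfl).strictMono ((Fin.castLE_lt_castLE_iff h).2 hij)
  · intro i
    exact S.orderEmbOfFin_mem rfl _
  · rintro y hy ⟨i, hi⟩
    have h1 : y ∈ Set.range (S.orderEmbOfFin rfl) := by
      rw [Finset.range_orderEmbOfFin]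
      exact hy
    obtain ⟨l, rfl⟩ := h1
    have h2 : l ≤ Fin.castLE h i := (S.orderEmbOfFin rfl).le_iff_le.1 hi
    have h3 : l.val < n := by
      have : l.val ≤ i.val := h2
      omega
    exact ⟨⟨l.val, h3⟩, rfl⟩

open Classical in
theorem rec_tuples (k q : ℕ) (hq : Squarefree q) : ∃ M K : ℕ, 1 ≤ M ∧ ∃ c : ℝ, 0 < c ∧
    ∀ a : ℕ, a.Coprime q → ∀ᶠ X : ℝ in atTop, ∀ H : ℕ, M * H ≤ c * ff X →
      ∀ F : Finset ℤ, F ⊆ Ico 0 (H : ℤ) → F.card = K →
        ∃ x : Fin (k + 2) → ℤ, (∀ i, x i ∈ F) ∧ StrictMono x ∧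
          X ^ (6 / 7 : ℝ) ≤ occ (c * ff X) X M K q a (fun i => x i - x 0) := by
  obtain ⟨η, hη, hT⟩ := Pool.Agent.TH101.RG.tuple_multiples
  obtain ⟨m₀, hm₀⟩ := exists_nat_ge (((k : ℝ) + 2) / η)
  set m : ℕ := max m₀ 1 with hm
  have hm1 : 1 ≤ m := le_max_right _ _
  have hmη : (k : ℝ) + 2 ≤ η * m := by
    rw [div_le_iff₀ hη] at hm₀
    have : (m₀ : ℝ) ≤ m := by exact_mod_cast le_max_left _ _
    nlinarith
  obtain ⟨K, hmK, hK⟩ := hT m hm1
  obtain ⟨c₀, hc₀, hev⟩ := hK 1 1 1 q hq
  have hq0 : q ≠ 0 := hq.ne_zero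
  set M : ℕ := K.factorial * q with hM
  have hM1 : 1 ≤ M := Nat.mul_pos (Nat.factorial_pos K) (Nat.pos_of_ne_zero hq0)
  refine ⟨M, K, hM1, c₀ / 2, by positivity, fun a ha => ?_⟩
  obtain ⟨col, hcol⟩ := bal m K hm1 hmK
  have hpow : ∀ᶠ X : ℝ in atTop, ((K : ℝ) ^ (k + 2)) * X ^ (6 / 7 : ℝ) ≤ X ^ (7 / 8 : ℝ) := by
    have h1 : ∀ᶠ X : ℝ in atTop, ((K : ℝ) ^ (k + 2)) ≤ X ^ (1 / 56 : ℝ) :=
      (tendsto_rpow_atTop (by norm_num)).eventually_ge_atTop _
    filter_upwards [h1, eventually_gt_atTop 0] with X h1 hX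
    have e : X ^ (7 / 8 : ℝ) = X ^ (1 / 56 : ℝ) * X ^ (6 / 7 : ℝ) := by
      rw [← Real.rpow_add hX]
      norm_num
    rw [e]
    exact mul_le_mul_of_nonneg_right h1 (by positivity)
  filter_upwards [hev, ev_ff c₀ hc₀, hpow, eventually_ge_atTop 2,
    Real.tendsto_log_atTop.eventually_ge_atTop 1] with X hX hff hpow hX2 hlog
  intro H hH F hF hFK
  obtain ⟨hff1, hff2, hff3⟩ := hff
  have hG0 : 0 ≤ c₀ / 2 * ff X := by positivity
  -- the shifts
  set u : Fin K → ℤ := fun j => F.orderEmbOfFin hFK j with hu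
  have huF : ∀ j, u j ∈ F := fun j => F.orderEmbOfFin_mem hFK j
  have hu0 : ∀ j, 0 ≤ u j ∧ u j < H := fun j => mem_Ico.1 (hF (huF j))
  set t : Fin K → ℕ := fun j => M * (u j).toNat with ht
  have htz : ∀ j, (t j : ℤ) = M * u j := by
    intro j
    rw [ht]
    push_cast
    rw [Int.toNat_of_nonneg (hu0 j).1]
  have huinj : Function.Injective u := (F.orderEmbOfFin hFK).injective
  have htinj : Function.Injective t := by
    intro i j hij
    apply huinj
    have h1 : (M : ℤ) * u i = M * u j := by rw [← htz, ← htz, hij]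
    exact mul_left_cancel₀ (by exact_mod_cast (by omega : M ≠ 0)) h1
  have htM : ∀ j, (t j : ℝ) ≤ M * H := by
    intro j
    have h1 : (t j : ℤ) ≤ M * H := by
      rw [htz]
      exact mul_le_mul_of_nonneg_left (hu0 j).2.le (by positivity)
    exact_mod_cast h1
  have htX : ∀ j, (t j : ℝ) ≤ Real.log X ^ 2 := fun j => by
    have := htM j
    linarith
  -- the pattern
  by_contra hcon
  push Not at hcon
  -- the exceptional integers
  set Xs : Finset (Fin (k + 2) → ℤ) := (Fintype.piFinset (fun _ : Fin (k + 2) => F)).filter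
    (fun x => StrictMono x) with hXs
  set bd : (Fin (k + 2) → ℤ) → Finset ℕ := fun x => (Finset.range (⌊4 * X⌋₊ + 1)).filter
    (fun n => Blk (c₀ / 2 * ff X) X M K q a (fun i => x i - x 0) (n + M * (x 0).toNat)) with hbd
  have hbdc : ∀ x ∈ Xs, ((bd x).card : ℝ) ≤ X ^ (6 / 7 : ℝ) := by
    intro x hx
    obtain ⟨hx1, hx2⟩ := mem_filter.1 hx
    refine le_trans ?_ (hcon x (Fintype.mem_piFinset.1 hx1) hx2).le
    rw [Nat.cast_le]
    unfold occ
    rw [← Set.ncard_coe_finset]
    refine Set.ncard_le_ncard_of_injOn (fun n => n + M * (x 0).toNat) ?_ ?_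
      (blk_finite _ _ _ _ _ _ _)
    · intro n hn
      rw [mem_coe, mem_filter] at hn
      exact hn.2
    · intro n _ n' _ h
      simpa using h
  set bad : Finset ℕ := Xs.biUnion bd with hbad
  have hbadc : (bad.card : ℝ) ≤ X ^ (7 / 8 : ℝ) := by
    calc (bad.card : ℝ) ≤ ∑ x ∈ Xs, ((bd x).card : ℝ) := by exact_mod_cast card_biUnion_le
      _ ≤ ∑ _x ∈ Xs, X ^ (6 / 7 : ℝ) := sum_le_sum hbdc
      _ = Xs.card * X ^ (6 / 7 : ℝ) := by rw [sum_const, nsmul_eq_mul]
      _ ≤ (K : ℝ) ^ (k + 2) * X ^ (6 / 7 : ℝ) := by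
          apply mul_le_mul_of_nonneg_right _ (by positivity)
          have h1 : Xs.card ≤ K ^ (k + 2) := by
            refine (card_le_card (filter_subset _ _)).trans ?_
            rw [Fintype.card_piFinset, prod_const, card_univ, Fintype.card_fin, hFK]
          exact_mod_cast h1
      _ ≤ _ := hpow
  obtain ⟨n, hn1, hn2, hn3, hn4, ⟨E, hE1, hE2⟩, hn5⟩ := hX 1 0 one_ne_zero (by
      rw [Int.cast_one, abs_one, pow_one]
      exact hlog) (by simp) (by
      rw [Int.cast_zero, abs_zero]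
      positivity) t htinj htX (by
      intro p hp
      by_cases hpK : p ≤ K
      · refine ⟨1, fun j hj => ?_⟩
        have h1 : p ∣ t j := by
          have h2 : p ∣ M := (Nat.dvd_factorial hp.pos hpK).mul_right q
          exact h2.mul_right _
        have h2 : p ∣ 1 := (Nat.dvd_add_left h1).1 hj
        exact hp.one_lt.ne' (Nat.dvd_one.1 h2)
      · by_contra hall
        push Not at hall
        -- every class is hit, but there are more classes than shifts
        have h1 : ∀ v : Fin p, ∃ j, p ∣ v.val + t j := fun v => hall v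
        choose g hg using h1
        have h2 : Function.Injective g := by
          intro v w hvw
          have h3 := hg v
          have h4 := hg w
          rw [hvw] at h3
          have h5 : v.val + t (g w) ≡ w.val + t (g w) [MOD p] :=
            ((Nat.modEq_zero_iff_dvd).2 h3).trans ((Nat.modEq_zero_iff_dvd).2 h4).symm
          have h6 := Nat.ModEq.add_right_cancel' _ h5
          have h7 := Nat.ModEq.eq_of_lt_of_lt h6 v.2 w.2
          exact Fin.ext h7
        have h3 := Fintype.card_le_of_injective g h2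
        rw [Fintype.card_fin, Fintype.card_fin] at h3
        exact hpK h3) a (by
      intro j
      have h1 : q ∣ t j := (Dvd.intro_left _ rfl : q ∣ M).mul_right _
      obtain ⟨w, hw⟩ := h1
      rw [hw]
      exact (Nat.coprime_add_mul_left_left a q w).2 ha) col hcol bad hbadc
  -- the primes of the window
  set S : Finset ℤ := (univ.filter (fun j => (n + t j).Prime)).image u with hS
  have hSc : k + 2 ≤ S.card := by
    rw [hS, card_image_of_injective _ huinj]
    have h1 : E ⊆ (univ.filter (fun j => (n + t j).Prime)).image col := by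
      intro e he
      obtain ⟨j, hj1, hj2⟩ := hE2 e he
      exact mem_image.2 ⟨j, mem_filter.2 ⟨mem_univ _, hj2⟩, hj1⟩
    have h2 : E.card ≤ (univ.filter (fun j => (n + t j).Prime)).card :=
      (card_le_card h1).trans card_image_le
    have h3 : ((k + 2 : ℕ) : ℝ) ≤ (univ.filter (fun j => (n + t j).Prime)).card := by
      push_cast
      refine hmη.trans (hE1.trans ?_)
      exact_mod_cast h2
    exact_mod_cast h3
  have hSm : ∀ y, y ∈ S ↔ ∃ j, (n + t j).Prime ∧ u j = y := by
    intro y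
    rw [hS, mem_image]
    constructor
    · rintro ⟨j, hj, rfl⟩
      exact ⟨j, (mem_filter.1 hj).2, rfl⟩
    · rintro ⟨j, hj, rfl⟩
      exact ⟨j, mem_filter.2 ⟨mem_univ _, hj⟩, rfl⟩
  obtain ⟨x, hx1, hx2, hx3⟩ := small_elts S (k + 2) hSc
  have hSF : ∀ y ∈ S, y ∈ F := by
    intro y hy
    obtain ⟨j, _, rfl⟩ := (hSm y).1 hy
    exact huF j
  have hx0 : ∀ i, 0 ≤ x i ∧ x i < H := fun i => mem_Ico.1 (hF (hSF _ (hx2 i)))
  have hwin : ∀ p : ℕ, p.Prime → |(p : ℝ) - n| ≤ c₀ * ff X → ∃ l, p = n + t l := by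
    intro p hp hpn
    refine hn5 1 1 (by norm_num) (by norm_num) (by norm_num) (by norm_num) p hp ?_
    have e : ((1 * p - 1 * (1 * n + 0) : ℤ) : ℝ) = (p : ℝ) - n := by push_cast; ring
    rw [e]
    exact hpn
  have hx0n : (((x 0).toNat : ℕ) : ℤ) = x 0 := Int.toNat_of_nonneg (hx0 0).1
  have hMx : (M : ℝ) * (x 0).toNat ≤ c₀ / 2 * ff X := by
    refine le_trans ?_ hH
    have h1 : (x 0).toNat ≤ H := by
      have := (hx0 0).2
      omega
    have h2 : (((x 0).toNat : ℕ) : ℝ) ≤ H := by exact_mod_cast h1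
    exact mul_le_mul_of_nonneg_left h2 (Nat.cast_nonneg _)
  have hblk : Blk (c₀ / 2 * ff X) X M K q a (fun i => x i - x 0) (n + M * (x 0).toNat) := by
    refine ⟨?_, ?_, ?_, ?_, ?_⟩
    · push_cast
      have : (0 : ℝ) ≤ M * (x 0).toNat := by positivity
      linarith
    · push_cast
      linarith
    · have h1 : q ∣ M * (x 0).toNat := (Dvd.intro_left _ rfl : q ∣ M).mul_right _
      have h2 : n + M * (x 0).toNat ≡ n + 0 [MOD q] :=
        Nat.ModEq.add_left n ((Nat.modEq_zero_iff_dvd).2 h1)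
      exact h2.trans hn4
    · intro y hy1 hy2
      have ez : ((n + M * (x 0).toNat : ℕ) : ℤ) + y = n + (M * x 0 + y) := by
        push_cast
        rw [hx0n]
        ring
      rw [ez]
      have hy2r : ((M * x 0 + y : ℤ) : ℝ) ≤ M * H := by
        have h1 : (M : ℤ) * x 0 + y ≤ M * x (Fin.last (k + 1)) := by
          have e : (M : ℤ) * (x (Fin.last (k + 1)) - x 0) =
            M * x (Fin.last (k + 1)) - M * x 0 := by ring
          have h2 : y ≤ (M : ℤ) * (x (Fin.last (k + 1)) - x 0) := hy2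
          linarith
        have h2 : (M : ℤ) * x (Fin.last (k + 1)) ≤ M * H :=
          mul_le_mul_of_nonneg_left (hx0 _).2.le (by positivity)
        exact_mod_cast h1.trans h2
      constructor
      · intro hpr
        have hpos : 0 < ((n : ℤ) + (M * x 0 + y)).toNat := hpr.pos
        have hcast : ((((n : ℤ) + (M * x 0 + y)).toNat : ℕ) : ℤ) = n + (M * x 0 + y) :=
          Int.toNat_of_nonneg (by omega)
        obtain ⟨l, hl⟩ := hwin _ hpr (by
          have h1 : ((((n : ℤ) + (M * x 0 + y)).toNat : ℕ) : ℝ) = n + ((M * x 0 + y : ℤ) : ℝ) := by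
            exact_mod_cast congrArg (Int.cast : ℤ → ℝ) hcast
          rw [h1, add_sub_cancel_left, abs_le]
          constructor
          · have h2 : (0 : ℝ) ≤ M * x 0 := by
              have h3 : (0 : ℤ) ≤ M * x 0 := mul_nonneg (by positivity) (hx0 0).1
              exact_mod_cast h3
            push_cast
            linarith
          · linarith)
        have h2 : (M : ℤ) * x 0 + y = M * u l := by
          have h3 : (n : ℤ) + (M * x 0 + y) = n + t l := by rw [← hcast, hl]; push_cast; ring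
          rw [htz] at h3
          linarith
        have h3 : u l ∈ S := (hSm _).2 ⟨l, by rw [← hl]; exact hpr, rfl⟩
        have h4 : u l ≤ x (Fin.last (k + 1)) := by
          have h5 : (M : ℤ) * u l ≤ M * x (Fin.last (k + 1)) := by
            rw [← h2]
            have e : (M : ℤ) * (x (Fin.last (k + 1)) - x 0) =
              M * x (Fin.last (k + 1)) - M * x 0 := by ring
            have h6 : y ≤ (M : ℤ) * (x (Fin.last (k + 1)) - x 0) := hy2
            linarith
          exact le_of_mul_le_mul_left h5 (by exact_mod_cast hM1)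
        obtain ⟨i, hi⟩ := hx3 _ h3 ⟨_, h4⟩
        refine ⟨i, ?_⟩
        show y = M * (x i - x 0)
        rw [← hi]
        linarith
      · rintro ⟨i, hi⟩
        have hi' : y = M * (x i - x 0) := hi
        obtain ⟨l, hl1, hl2⟩ := (hSm _).1 (hx2 i)
        have h1 : (n : ℤ) + (M * x 0 + y) = ((n + t l : ℕ) : ℤ) := by
          push_cast
          rw [htz, hl2, hi']
          ring
        rw [h1, Int.toNat_natCast]
        exact hl1
    · refine le_trans (Set.ncard_le_ncard (t := ((univ : Finset (Fin K)).image (fun l => n + t l) :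
        Set ℕ)) ?_ (Set.toFinite _)) ?_
      · rintro p ⟨hp1, hp2⟩
        obtain ⟨l, hl⟩ := hwin p hp1 (by
          push_cast at hp2
          rw [abs_le] at hp2 ⊢
          have h2 : (0 : ℝ) ≤ M * (x 0).toNat := by positivity
          constructor
          · linarith [hp2.1]
          · linarith [hp2.2])
        rw [mem_coe, mem_image]
        exact ⟨l, mem_univ _, hl.symm⟩
      · rw [Set.ncard_coe_finset]
        refine card_image_le.trans ?_
        rw [card_univ, Fintype.card_fin]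
  apply hn3
  rw [hbad, mem_biUnion]
  refine ⟨x, ?_, ?_⟩
  · rw [hXs, mem_filter, Fintype.mem_piFinset]
    exact ⟨fun i => hSF _ (hx2 i), hx1⟩
  · rw [hbd, mem_filter, Finset.mem_range]
    refine ⟨?_, hblk⟩
    have : n ≤ ⌊4 * X⌋₊ := Nat.le_floor (by linarith)
    omega

end Pool.Agent.N688.FB
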