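import Pool.Agent.TH101.RG.TupMult
import Pool.Agent.N646.AC.Clq
import Pool.Agent.N646.AC.Vec

set_option autoImplicit false
set_option maxHeartbeats 4000000

/-!
# Clusters of primes between record gaps: almost all vectors of shifts in a Bohr set
-/

namespace Pool.Agent.N688.FB

open Finset Filter
open Pool.Agent.H312R2.RG (ev_ff)
open Pool.Agent.H256R2.SC (ff)
open Pool.Agent.H362R2.RQ (fib)
open Pool.Agent.N646.AC

/-- `n + M h` is prime for all `h` in the set, and there are at most `K` primes near `n` -/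
def Clu (G X B : ℝ) (M K q a : ℕ) (S : Set ℤ) (n : ℕ) : Prop :=
  X < n ∧ (n : ℝ) ≤ B * X ∧ n ≡ a [MOD q] ∧ (∀ h ∈ S, ((n : ℤ) + M * h).toNat.Prime) ∧
    {p' : ℕ | p'.Prime ∧ |(p' : ℝ) - n| ≤ G}.ncard ≤ K

/-- the number of the clusters -/
noncomputable def clu (G X B : ℝ) (M K q a : ℕ) (S : Set ℤ) : ℕ :=
  {n : ℕ | Clu G X B M K q a S n}.ncard

theorem clu_finite (G X B : ℝ) (M K q a : ℕ) (S : Set ℤ) :
    {n : ℕ | Clu G X B M K q a S n}.Finite := by
  apply (Set.finite_Iic ⌊B * X⌋₊).subset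
  intro p hp
  exact Set.mem_Iic.2 (Nat.le_floor hp.2.1)

theorem clu_mono {G X B : ℝ} {M K q a : ℕ} {S S' : Set ℤ} (h : S' ⊆ S) :
    clu G X B M K q a S ≤ clu G X B M K q a S' := by
  unfold clu
  apply Set.ncard_le_ncard _ (clu_finite G X B M K q a S')
  rintro n ⟨h1, h2, h3, h4, h5⟩
  exact ⟨h1, h2, h3, fun x hx => h4 x (h hx), h5⟩

theorem clu_shift {G X : ℝ} {M K q a : ℕ} {S : Set ℤ} (x : ℤ) (hx : 0 ≤ x) (hMx : (M : ℝ) * x ≤ G)
    (hGX : G ≤ X) (hq : q ∣ M) (h0 : 0 ≤ X) :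
    clu (2 * G) X 3 M K q a S ≤ clu G X 4 M K q a ((fun y => y - x) '' S) := by
  unfold clu
  refine Set.ncard_le_ncard_of_injOn (fun n => n + M * x.toNat) ?_ ?_ (clu_finite _ _ _ _ _ _ _ _)
  · rintro n ⟨h1, h2, h3, h4, h5⟩
    have hxn : ((x.toNat : ℕ) : ℤ) = x := Int.toNat_of_nonneg hx
    have hxr : ((x.toNat : ℕ) : ℝ) = x := by exact_mod_cast congrArg (Int.cast : ℤ → ℝ) hxn
    have hM0 : (0 : ℝ) ≤ M * x := by
      have : (0 : ℝ) ≤ x := by exact_mod_cast hx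
      positivity
    refine ⟨?_, ?_, ?_, ?_, ?_⟩
    · push_cast
      rw [hxr]
      linarith
    · push_cast
      rw [hxr]
      linarith
    · have h6 : n + M * x.toNat ≡ n + 0 [MOD q] :=
        Nat.ModEq.add_left n ((Nat.modEq_zero_iff_dvd).2 (hq.mul_right _))
      exact h6.trans h3
    · rintro _ ⟨y, hy, rfl⟩
      have e : (((n + M * x.toNat : ℕ) : ℤ) + M * (y - x)) = n + M * y := by
        push_cast
        rw [hxn]
        ring
      show ((((n + M * x.toNat : ℕ) : ℤ) + M * (y - x)).toNat).Prime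
      rw [e]
      exact h4 y hy
    · refine le_trans (Set.ncard_le_ncard ?_ ?_) h5
      · rintro p ⟨hp1, hp2⟩
        refine ⟨hp1, ?_⟩
        push_cast at hp2
        rw [hxr, abs_le] at hp2
        rw [abs_le]
        constructor
        · linarith [hp2.1]
        · linarith [hp2.2]
      · apply (Set.finite_Iic ⌊(n : ℝ) + 2 * G⌋₊).subset
        rintro p ⟨_, hp2⟩
        rw [abs_le] at hp2
        exact Set.mem_Iic.2 (Nat.le_floor (by linarith [hp2.2]))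
  · intro n _ n' _ h
    simpa using h

open Classical in
theorem rec_hit (q : ℕ) (hq : Squarefree q) : ∃ lam : ℝ, 1 ≤ lam ∧ ∃ Kf : ℕ → ℕ, ∀ M₁ : ℕ,
    ∃ M K : ℕ, 1 ≤ M ∧ q ∣ M ∧ ∃ c : ℝ, 0 < c ∧
    ∀ a : ℕ, a.Coprime q → ∀ᶠ X : ℝ in atTop, ∀ H : ℕ, M * H ≤ c * ff X →
      Hit lam Kf M₁ (Ico 0 (H : ℤ))
        (fun F => X ^ (6 / 7 : ℝ) ≤ clu (2 * (c * ff X)) X 3 M K q a (F : Set ℤ)) := by
  obtain ⟨η, hη, hT⟩ := Pool.Agent.TH101.RG.tuple_multiples
  refine ⟨max (1 / η) 1, le_max_right _ _, ?_⟩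
  -- the numbers of the shifts
  have hT' : ∀ m : ℕ, ∃ K : ℕ, m ≤ K ∧ (1 ≤ m → ∃ c : ℝ, 0 < c ∧ ∀ᶠ X : ℝ in atTop,
    ∀ t : Fin K → ℕ, Function.Injective t → (∀ j, (t j : ℝ) ≤ (Real.log X) ^ 2) →
    (∀ p : ℕ, p.Prime → ∃ v : ℕ, ∀ j, ¬ p ∣ v + t j) →
    ∀ h : ℕ, (∀ j, (h + t j).Coprime q) →
    ∀ col : Fin K → Fin m, (∀ e, K ≤ 2 * m * fib col e) →
    ∀ bad : Finset ℕ, (bad.card : ℝ) ≤ X ^ (7 / 8 : ℝ) →
    ∃ n : ℕ, X < n ∧ (n : ℝ) ≤ 3 * X ∧ n ∉ bad ∧ n ≡ h [MOD q] ∧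
      (∃ E : Finset (Fin m), η * m ≤ E.card ∧ ∀ e ∈ E, ∃ j, col j = e ∧ (n + t j).Prime) ∧
      ∀ p : ℕ, p.Prime → |(p : ℝ) - n| ≤ c * ff X → ∃ l, p = n + t l) := by
    intro m
    rcases Nat.eq_zero_or_pos m with hm | hm
    · exact ⟨m, le_rfl, fun h => by omega⟩
    obtain ⟨K, hmK, hK⟩ := hT m hm
    refine ⟨K, hmK, fun _ => ?_⟩
    obtain ⟨c, hc, hev⟩ := hK 1 1 1 q hq
    refine ⟨c, hc, ?_⟩
    filter_upwards [hev, eventually_ge_atTop 2, Real.tendsto_log_atTop.eventually_ge_atTop 1]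
      with X hX hX2 hlog
    intro t h1 h2 h3 h h4 col h5 bad h6
    obtain ⟨n, g1, g2, g3, g4, g5, g6⟩ := hX 1 0 one_ne_zero (by
      rw [Int.cast_one, abs_one, pow_one]
      exact hlog) (by simp) (by
      rw [Int.cast_zero, abs_zero]
      positivity) t h1 h2 h3 h h4 col h5 bad h6
    refine ⟨n, g1, g2, g3, g4, g5, fun p hp hpn => ?_⟩
    refine g6 1 1 (by norm_num) (by norm_num) (by norm_num) (by norm_num) p hp ?_
    have e : ((1 * p - 1 * (1 * n + 0) : ℤ) : ℝ) = (p : ℝ) - n := by push_cast; ring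
    rw [e]
    exact hpn
  choose Kf hKf1 hKf2 using hT'
  refine ⟨Kf, fun M₁ => ?_⟩
  set K₀ : ℕ := ∑ m ∈ Finset.range (M₁ + 1), Kf m with hK₀
  have hK₀m : ∀ m, m ≤ M₁ → Kf m ≤ K₀ := fun m hm =>
    single_le_sum (f := fun m => Kf m) (fun _ _ => Nat.zero_le _) (Finset.mem_range.2 (by omega))
  have hcc : ∃ c : ℝ, 0 < c ∧ ∀ m (h : 1 ≤ m), m ≤ M₁ → c ≤ (hKf2 m h).choose := by
    set cs : ℕ → ℝ := fun m => if h : 1 ≤ m then (hKf2 m h).choose else 1 with hcs
    have hcs0 : ∀ m, 0 < cs m := by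
      intro m
      rw [hcs]
      dsimp only
      split_ifs with h
      · exact (hKf2 m h).choose_spec.1
      · exact one_pos
    refine ⟨(Finset.range (M₁ + 1)).inf' ⟨0, by simp⟩ cs, ?_, ?_⟩
    · exact (Finset.lt_inf'_iff _).2 fun m _ => hcs0 m
    · intro m h hm
      have h1 := Finset.inf'_le cs (Finset.mem_range.2 (by omega : m < M₁ + 1))
      refine h1.trans (le_of_eq ?_)
      rw [hcs]
      dsimp only
      rw [dif_pos h]
  obtain ⟨c, hc, hcm⟩ := hcc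
  have hq0 : q ≠ 0 := hq.ne_zero
  set M : ℕ := K₀.factorial * q with hM
  have hM1 : 1 ≤ M := Nat.mul_pos (Nat.factorial_pos K₀) (Nat.pos_of_ne_zero hq0)
  refine ⟨M, K₀, hM1, Dvd.intro_left _ rfl, c / 2, by positivity, fun a ha => ?_⟩
  have hpow : ∀ᶠ X : ℝ in atTop, ∀ m ≤ M₁, ((2 : ℝ) ^ m * (Kf m : ℝ) ^ m) * X ^ (6 / 7 : ℝ) ≤
      X ^ (7 / 8 : ℝ) := by
    have h1 : ∀ᶠ X : ℝ in atTop, ∀ m ∈ Finset.range (M₁ + 1),
        ((2 : ℝ) ^ m * (Kf m : ℝ) ^ m) ≤ X ^ (1 / 56 : ℝ) := by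
      rw [Filter.eventually_all_finset]
      intro m _
      exact (tendsto_rpow_atTop (by norm_num)).eventually_ge_atTop _
    filter_upwards [h1, eventually_gt_atTop 0] with X h1 hX m hm
    have e : X ^ (7 / 8 : ℝ) = X ^ (1 / 56 : ℝ) * X ^ (6 / 7 : ℝ) := by
      rw [← Real.rpow_add hX]
      norm_num
    rw [e]
    exact mul_le_mul_of_nonneg_right (h1 m (Finset.mem_range.2 (by omega))) (by positivity)
  have hevall : ∀ᶠ X : ℝ in atTop, ∀ m (h : 1 ≤ m), m ≤ M₁ →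
      ∀ t : Fin (Kf m) → ℕ, Function.Injective t → (∀ j, (t j : ℝ) ≤ (Real.log X) ^ 2) →
    (∀ p : ℕ, p.Prime → ∃ v : ℕ, ∀ j, ¬ p ∣ v + t j) →
    ∀ h : ℕ, (∀ j, (h + t j).Coprime q) →
    ∀ col : Fin (Kf m) → Fin m, (∀ e, Kf m ≤ 2 * m * fib col e) →
    ∀ bad : Finset ℕ, (bad.card : ℝ) ≤ X ^ (7 / 8 : ℝ) →
    ∃ n : ℕ, X < n ∧ (n : ℝ) ≤ 3 * X ∧ n ∉ bad ∧ n ≡ h [MOD q] ∧
      (∃ E : Finset (Fin m), η * m ≤ E.card ∧ ∀ e ∈ E, ∃ j, col j = e ∧ (n + t j).Prime) ∧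
      ∀ p : ℕ, p.Prime → |(p : ℝ) - n| ≤ c * ff X → ∃ l, p = n + t l := by
    have h1 : ∀ᶠ X : ℝ in atTop, ∀ m ∈ Finset.range (M₁ + 1), ∀ (h : 1 ≤ m),
      ∀ t : Fin (Kf m) → ℕ, Function.Injective t → (∀ j, (t j : ℝ) ≤ (Real.log X) ^ 2) →
    (∀ p : ℕ, p.Prime → ∃ v : ℕ, ∀ j, ¬ p ∣ v + t j) →
    ∀ h : ℕ, (∀ j, (h + t j).Coprime q) →
    ∀ col : Fin (Kf m) → Fin m, (∀ e, Kf m ≤ 2 * m * fib col e) →
    ∀ bad : Finset ℕ, (bad.card : ℝ) ≤ X ^ (7 / 8 : ℝ) →
    ∃ n : ℕ, X < n ∧ (n : ℝ) ≤ 3 * X ∧ n ∉ bad ∧ n ≡ h [MOD q] ∧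
      (∃ E : Finset (Fin m), η * m ≤ E.card ∧ ∀ e ∈ E, ∃ j, col j = e ∧ (n + t j).Prime) ∧
      ∀ p : ℕ, p.Prime → |(p : ℝ) - n| ≤ c * ff X → ∃ l, p = n + t l := by
      rw [Filter.eventually_all_finset]
      intro m hm
      by_cases h : 1 ≤ m
      · filter_upwards [(hKf2 m h).choose_spec.2, ev_ff 1 one_pos] with X hX hff _
        intro t h1 h2 h3 h' h4 col h5 bad h6
        obtain ⟨n, g1, g2, g3, g4, g5, g6⟩ := hX t h1 h2 h3 h' h4 col h5 bad h6
        refine ⟨n, g1, g2, g3, g4, g5, fun p hp hpn => g6 p hp (hpn.trans ?_)⟩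
        exact mul_le_mul_of_nonneg_right (hcm m h (by
          have := Finset.mem_range.1 hm
          omega)) hff.2.1
      · exact Filter.Eventually.of_forall fun X h' => absurd h' h
    filter_upwards [h1] with X hX m h hm
    exact hX m (Finset.mem_range.2 (by omega)) h
  filter_upwards [hevall, ev_ff c hc, hpow, eventually_ge_atTop 2] with X hX hff hpow hX2
  intro H hH
  obtain ⟨hff1, hff2, hff3⟩ := hff
  intro m hm1 hmM F hF hFinj
  -- the elements and the colours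
  have hK0 : ∀ i : Fin (Kf m), i.val / m < Kf m := fun i =>
    lt_of_le_of_lt (Nat.div_le_self _ _) i.2
  set cl₁ : Fin (Kf m) → Fin m := fun i => ⟨i.val % m, Nat.mod_lt _ (by omega)⟩ with hcl₁
  set pos : Fin (Kf m) → Fin (Kf m) := fun i => ⟨i.val / m, hK0 i⟩ with hpos
  have hbal : ∀ e, Kf m ≤ 2 * m * fib cl₁ e := by
    intro e
    have h1 : Kf m / m ≤ fib cl₁ e := by
      unfold fib
      have h2 : (univ.image (fun s : Fin (Kf m / m) => (⟨e.val + m * s.val, by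
          have h3 := s.2
          have h4 := e.2
          have h5 : m * (Kf m / m) ≤ Kf m := Nat.mul_div_le (Kf m) m
          have h6 : m * (s.val + 1) ≤ m * (Kf m / m) := Nat.mul_le_mul_left m h3
          rw [Nat.mul_add, Nat.mul_one] at h6
          omega⟩ : Fin (Kf m)))) ⊆ univ.filter (fun i : Fin (Kf m) => cl₁ i = e) := by
        intro i hi
        obtain ⟨s, _, rfl⟩ := mem_image.1 hi
        rw [mem_filter]
        refine ⟨mem_univ _, ?_⟩
        apply Fin.ext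
        simp only [hcl₁, Nat.add_mul_mod_self_left]
        exact Nat.mod_eq_of_lt e.2
      have h3 := card_le_card h2
      rw [card_image_of_injective _ (by
        intro s s' hss
        have h4 := congrArg Fin.val hss
        simp only at h4
        apply Fin.ext
        have h5 : m * s.val = m * s'.val := by omega
        exact Nat.eq_of_mul_eq_mul_left (by omega) h5), card_univ, Fintype.card_fin] at h3
      exact h3
    have h2 : Kf m < m * (Kf m / m + 1) := Nat.lt_mul_div_succ (Kf m) (show 0 < m by omega)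
    have h3 : 1 ≤ Kf m / m := (Nat.one_le_div_iff (by omega)).2 (hKf1 m)
    have h4 : m * (Kf m / m) ≤ m * fib cl₁ e := Nat.mul_le_mul_left m h1
    have h5 : m ≤ m * (Kf m / m) := Nat.le_mul_of_pos_right m (by omega)
    rw [Nat.mul_add, Nat.mul_one] at h2
    have h6 : 2 * m * fib cl₁ e = 2 * (m * fib cl₁ e) := by ring
    rw [h6]
    omega
  set u : Fin (Kf m) → ℤ := fun i => F (cl₁ i) (pos i) with hu
  have huinj : Function.Injective u := by
    intro i j hij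
    have h1 := hFinj (a₁ := (cl₁ i, pos i)) (a₂ := (cl₁ j, pos j)) hij
    rw [Prod.mk.injEq] at h1
    have h2 := congrArg Fin.val h1.1
    have h3 := congrArg Fin.val h1.2
    simp only [hcl₁, hpos] at h2 h3
    apply Fin.ext
    rw [← Nat.div_add_mod i.val m, ← Nat.div_add_mod j.val m, h2, h3]
  have hu0 : ∀ j, 0 ≤ u j ∧ u j < H := fun j => mem_Ico.1 (hF _ _)
  set t : Fin (Kf m) → ℕ := fun j => M * (u j).toNat with ht
  have htz : ∀ j, (t j : ℤ) = M * u j := by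
    intro j
    rw [ht]
    push_cast
    rw [Int.toNat_of_nonneg (hu0 j).1]
  have htinj : Function.Injective t := by
    intro i j hij
    apply huinj
    have h1 : (M : ℤ) * u i = M * u j := by rw [← htz, ← htz, hij]
    exact mul_left_cancel₀ (by exact_mod_cast (by omega : M ≠ 0)) h1
  have htX : ∀ j, (t j : ℝ) ≤ Real.log X ^ 2 := by
    intro j
    have h1 : (t j : ℤ) ≤ M * H := by
      rw [htz]
      exact mul_le_mul_of_nonneg_left (hu0 j).2.le (by positivity)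
    have h2 : (t j : ℝ) ≤ M * H := by exact_mod_cast h1
    have h3 : 0 ≤ c * ff X := by positivity
    linarith
  -- the exceptional integers
  by_contra hcon
  push Not at hcon
  set Ch : Finset (Finset (Fin m) × (Fin m → Fin (Kf m))) := univ with hCh
  set bd : Finset (Fin m) × (Fin m → Fin (Kf m)) → Finset ℕ := fun σ =>
    if ((m : ℝ) ≤ max (1 / η) 1 * (σ.1.card : ℝ)) then
      (clu_finite (2 * (c / 2 * ff X)) X 3 M K₀ q a
        (((σ.1.image (fun g => F g (σ.2 g)) : Finset ℤ)) : Set ℤ)).toFinset else ∅ with hbd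
  have hbdc : ∀ σ ∈ Ch, ((bd σ).card : ℝ) ≤ X ^ (6 / 7 : ℝ) := by
    intro σ _
    by_cases hσ : (m : ℝ) ≤ max (1 / η) 1 * (σ.1.card : ℝ)
    · have h1 := hcon σ.1 σ.2 hσ
      rw [hbd]
      dsimp only
      rw [if_pos hσ]
      refine le_trans (le_of_eq ?_) h1.le
      unfold clu
      rw [Set.ncard_eq_toFinset_card _ (clu_finite _ _ _ _ _ _ _ _)]
    · rw [hbd]
      dsimp only
      rw [if_neg hσ, card_empty, Nat.cast_zero]
      positivity
  set bad : Finset ℕ := Ch.biUnion bd with hbad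
  have hbadc : (bad.card : ℝ) ≤ X ^ (7 / 8 : ℝ) := by
    calc (bad.card : ℝ) ≤ ∑ σ ∈ Ch, ((bd σ).card : ℝ) := by exact_mod_cast card_biUnion_le
      _ ≤ ∑ _σ ∈ Ch, X ^ (6 / 7 : ℝ) := sum_le_sum hbdc
      _ = Ch.card * X ^ (6 / 7 : ℝ) := by rw [sum_const, nsmul_eq_mul]
      _ = (2 : ℝ) ^ m * (Kf m : ℝ) ^ m * X ^ (6 / 7 : ℝ) := by
          congr 1
          rw [hCh, card_univ, Fintype.card_prod, Fintype.card_finset, Fintype.card_fun,
            Fintype.card_fin, Fintype.card_fin]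
          push_cast
          rfl
      _ ≤ _ := hpow m hmM
  obtain ⟨n, hn1, hn2, hn3, hn4, ⟨E, hE1, hE2⟩, hn5⟩ := hX m hm1 hmM t htinj htX (by
      intro p hp
      by_cases hpK : p ≤ Kf m
      · refine ⟨1, fun j hj => ?_⟩
        have h1 : p ∣ t j := by
          have h2 : p ∣ M := (Nat.dvd_factorial hp.pos (hpK.trans (hK₀m m hmM))).mul_right q
          exact h2.mul_right _
        have h2 : p ∣ 1 := (Nat.dvd_add_left h1).1 hj
        exact hp.one_lt.ne' (Nat.dvd_one.1 h2)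
      · by_contra hall
        push Not at hall
        have h1 : ∀ v : Fin p, ∃ j, p ∣ v.val + t j := fun v => hall v
        choose g hg using h1
        have h2 : Function.Injective g := by
          intro v w hvw
          have h3 := hg v
          have h4 := hg w
          rw [hvw] at h3
          have h5 : v.val + t (g w) ≡ w.val + t (g w) [MOD p] :=
            ((Nat.modEq_zero_iff_dvd).2 h3).trans ((Nat.modEq_zero_iff_dvd).2 h4).symm
          have h6 := Nat.ModEq.add_right_cancel' _ h5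
          have h7 := Nat.ModEq.eq_of_lt_of_lt h6 v.2 w.2
          exact Fin.ext h7
        have h3 := Fintype.card_le_of_injective g h2
        rw [Fintype.card_fin, Fintype.card_fin] at h3
        exact hpK h3) a (by
      intro j
      have h1 : q ∣ t j := (Dvd.intro_left _ rfl : q ∣ M).mul_right _
      obtain ⟨w, hw⟩ := h1
      rw [hw]
      exact (Nat.coprime_add_mul_left_left a q w).2 ha) cl₁ hbal bad hbadc
  -- the choice
  have hm0 : 0 < Kf m := lt_of_lt_of_le (by omega) (hKf1 m)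
  set ch : Fin m → Fin (Kf m) := fun e => if h : e ∈ E then pos (hE2 e h).choose else ⟨0, hm0⟩ with hch
  have hEm : (m : ℝ) ≤ max (1 / η) 1 * (E.card : ℝ) := by
    have h1 : (m : ℝ) ≤ 1 / η * E.card := by
      rw [one_div, inv_mul_eq_div, le_div_iff₀ hη]
      linarith
    refine h1.trans ?_
    exact mul_le_mul_of_nonneg_right (le_max_left _ _) (Nat.cast_nonneg _)
  apply hn3
  rw [hbad, mem_biUnion]
  refine ⟨(E, ch), mem_univ _, ?_⟩
  rw [hbd]
  dsimp only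
  rw [if_pos hEm, Set.Finite.mem_toFinset]
  refine ⟨hn1, hn2, hn4, ?_, ?_⟩
  · intro h hh
    rw [mem_coe, mem_image] at hh
    obtain ⟨e, he, rfl⟩ := hh
    obtain ⟨g1, g2⟩ := (hE2 e he).choose_spec
    have e1 : F e (ch e) = u (hE2 e he).choose := by
      rw [hch]
      dsimp only
      rw [dif_pos he, hu]
      dsimp only
      rw [g1]
    rw [e1]
    have e2 : (n : ℤ) + M * u (hE2 e he).choose = ((n + t (hE2 e he).choose : ℕ) : ℤ) := by
      push_cast
      rw [htz]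
    rw [e2, Int.toNat_natCast]
    exact g2
  · refine le_trans (Set.ncard_le_ncard (t := ((univ : Finset (Fin (Kf m))).image (fun l => n + t l) :
        Set ℕ)) ?_ (Set.toFinite _)) ?_
    · rintro p ⟨hp1, hp2⟩
      obtain ⟨l, hl⟩ := hn5 p hp1 (by
        refine hp2.trans (le_of_eq ?_)
        ring)
      rw [mem_coe, mem_image]
      exact ⟨l, mem_univ _, hl.symm⟩
    · rw [Set.ncard_coe_finset]
      refine card_image_le.trans ?_
      rw [card_univ, Fintype.card_fin]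
      exact hK₀m m hmM

open Classical in
/-- **almost all vectors in a Bohr set** -/
theorem rec_vectors (k s q : ℕ) (hq : Squarefree q) (ε : ℝ) (hε : 0 < ε) :
    ∃ (M K d n₀ : ℕ) (c ρ δ : ℝ), 1 ≤ M ∧ 0 < c ∧ 0 < ρ ∧ 0 < δ ∧
    ∀ a : ℕ, a.Coprime q → ∀ᶠ X : ℝ in atTop, ∀ H : ℕ, n₀ ≤ H → M * H ≤ c * ff X →
      ∃ (Θ : Finset ℝ) (r : ℝ), Θ.card ≤ d ∧ ρ ≤ r ∧ r ≤ 1 ∧ δ * H ≤ (Bz Θ r H).card ∧
      (((Fintype.piFinset (fun _ : Fin k => Bz Θ r H)).filter (fun y =>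
        ¬ ∀ T ∈ Mats k s, T.det ≠ 0 →
          Function.Injective (nv (T.mulVec y)) ∧ X ^ (6 / 7 : ℝ) ≤
            clu (c * ff X) X 4 M K q a (Set.range (nv (T.mulVec y))))).card : ℝ) ≤
        ε * ((Bz Θ r H).card : ℝ) ^ k := by
  obtain ⟨lam, hlam, Kf, hhit⟩ := rec_hit q hq
  have hlam0 : 0 < lam := by linarith
  set α : ℝ := 1 / (2 * lam) with hα
  have hα0 : 0 < α := by positivity
  obtain ⟨d, H₀, ρ, δ, ε', hρ, hδ, hε', hret⟩ := returnsZ k s α hα0 ε hε
  obtain ⟨M₁, n₁, hcl⟩ := wclique hlam k (min ε' α) (lt_min hε' hα0) 1 le_rfl Kf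
  obtain ⟨M, K, hM, hqM, c, hc, hev⟩ := hhit M₁
  refine ⟨M, K, d, max (max H₀ n₁) 1, c, ρ, δ, hM, hc, hρ, hδ, fun a ha => ?_⟩
  filter_upwards [hev a ha, ev_ff c hc, eventually_ge_atTop 1] with X hX hff hX1
  intro H hH hMH
  have hH0 : H₀ ≤ H := (le_max_left _ _).trans ((le_max_left _ _).trans hH)
  have hH1 : n₁ ≤ H := (le_max_right _ _).trans ((le_max_left _ _).trans hH)
  have hH2 : 1 ≤ H := (le_max_right _ _).trans hH
  have hVc : (Ico 0 (H : ℤ)).card = H := by rw [Int.card_Ico, sub_zero, Int.toNat_natCast]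
  obtain ⟨A, hA1, hA2, hA3⟩ := hcl ℤ (Ico 0 (H : ℤ))
    (fun F => X ^ (6 / 7 : ℝ) ≤ clu (2 * (c * ff X)) X 3 M K q a (F : Set ℤ)) (by rw [hVc]; exact hH1)
    (fun F F' hFF h => h.trans (by
      rw [Nat.cast_le]
      exact clu_mono (by exact_mod_cast hFF))) (hX H hMH) (fun _ => 1) (fun _ _ => ⟨le_rfl, le_rfl⟩)
  simp only [sum_const, smul_eq_mul, mul_one] at hA2
  rw [hVc] at hA2 hA3
  have hHr : (0 : ℝ) < H := by exact_mod_cast hH2
  have hAα : α * H ≤ A.card := by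
    refine le_trans ?_ hA2
    apply mul_le_mul_of_nonneg_right _ hHr.le
    have h1 : 1 / lam = 2 * α := by rw [hα]; field_simp
    rw [h1]
    have := min_le_right ε' α
    linarith
  obtain ⟨Θ, r, h1, h2, h3, h4, h5⟩ := hret H hH0 A hA1 hAα
  refine ⟨Θ, r, h1, h2, h3, h4, ?_⟩
  refine h5 (fun t => X ^ (6 / 7 : ℝ) ≤ clu (c * ff X) X 4 M K q a (Set.range t)) ?_
  calc (((Fintype.piFinset (fun _ : Fin (k + 1) => A)).filter (fun t => Function.Injective t ∧
        ¬ X ^ (6 / 7 : ℝ) ≤ clu (c * ff X) X 4 M K q a (Set.range (fun i => t i - t 0)))).card : ℝ)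
      ≤ ((badT k A (fun F => X ^ (6 / 7 : ℝ) ≤
          clu (2 * (c * ff X)) X 3 M K q a (F : Set ℤ))).card : ℝ) := by
        rw [Nat.cast_le]
        apply card_le_card
        intro t ht
        rw [mem_filter, Fintype.mem_piFinset] at ht
        rw [mem_badT]
        refine ⟨ht.1, ht.2.1, fun hG => ht.2.2 (hG.trans ?_)⟩
        rw [Nat.cast_le]
        have h6 := mem_Ico.1 (hA1 (ht.1 0))
        refine (clu_shift (t 0) h6.1 ?_ ?_ hqM (by linarith)).trans ?_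
        · refine le_trans ?_ hMH
          have h7 : ((t 0 : ℤ) : ℝ) ≤ H := by exact_mod_cast h6.2.le
          exact mul_le_mul_of_nonneg_left h7 (Nat.cast_nonneg _)
        · have := hff.2.2
          have h8 : 0 ≤ c * ff X := mul_nonneg hc.le hff.2.1
          linarith
        · apply clu_mono
          rintro _ ⟨i, rfl⟩
          exact ⟨t i, by simp, rfl⟩
    _ ≤ min ε' α * (H : ℝ) ^ (k + 1) := hA3.le
    _ ≤ ε' * (H : ℝ) ^ (k + 1) := mul_le_mul_of_nonneg_right (min_le_left _ _) (by positivity)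

end Pool.Agent.N688.FB
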